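import Mathlib

/-!
# Labelings of the hypercube whose classes are dominating sets

`Lab ι K`: there is a map `π : (ι → Bool) → K` such that every closed neighbourhood of the hypercube
`{0,1}^ι` meets every class of `π`. We construct such labelings of `{0,1}^n` with
`(1 - o(1)) n` classes.
-/

set_option autoImplicit false

open Finset

namespace Pool.Agent.D0H3.Labeling

/-- flip a coordinate -/
def fl {ι : Type} [DecidableEq ι] (x : ι → Bool) (i : ι) : ι → Bool := Function.update x i (!(x i))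

lemma fl_self {ι : Type} [DecidableEq ι] (x : ι → Bool) (i : ι) : fl x i i = !(x i) := by simp [fl]

lemma fl_of_ne {ι : Type} [DecidableEq ι] (x : ι → Bool) {i j : ι} (h : j ≠ i) :
    fl x i j = x j := by simp [fl, h]

/-- There is a labeling of the vertices of the hypercube `{0,1}^ι` by the elements of `K` such that
every label occurs in every closed neighbourhood. -/
def Lab (ι K : Type) [DecidableEq ι] : Prop :=
  ∃ π : (ι → Bool) → K, ∀ x k, π x = k ∨ ∃ i, π (fl x i) = k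

lemma Lab.comp {ι K K' : Type} [DecidableEq ι] (h : Lab ι K) (f : K → K')
    (hf : Function.Surjective f) : Lab ι K' := by
  obtain ⟨π, hπ⟩ := h
  refine ⟨fun x => f (π x), fun x k' => ?_⟩
  obtain ⟨k, rfl⟩ := hf k'
  rcases hπ x k with h | ⟨i, h⟩
  · exact Or.inl (by simp only [h])
  · exact Or.inr ⟨i, by simp only [h]⟩

lemma Lab.equiv {ι ι' K : Type} [DecidableEq ι] [DecidableEq ι'] (h : Lab ι K) (e : ι ≃ ι') :
    Lab ι' K := by
  obtain ⟨π, hπ⟩ := h
  refine ⟨fun x => π (fun i => x (e i)), fun x k => ?_⟩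
  rcases hπ (fun i => x (e i)) k with h | ⟨i, h⟩
  · exact Or.inl h
  · refine Or.inr ⟨e i, ?_⟩
    rw [← h]
    change π _ = π _
    congr 1
    funext j
    by_cases hj : j = i
    · subst hj; rw [fl_self, fl_self]
    · rw [fl_of_ne _ hj, fl_of_ne _ (fun h => hj (e.injective h))]

lemma Lab.pad {ι ι' K : Type} [DecidableEq ι] [DecidableEq ι'] (h : Lab ι K) :
    Lab (ι ⊕ ι') K := by
  obtain ⟨π, hπ⟩ := h
  refine ⟨fun x => π (fun i => x (Sum.inl i)), fun x k => ?_⟩
  rcases hπ (fun i => x (Sum.inl i)) k with h | ⟨i, h⟩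
  · exact Or.inl h
  · refine Or.inr ⟨Sum.inl i, ?_⟩
    rw [← h]
    change π _ = π _
    congr 1
    funext j
    by_cases hj : j = i
    · subst hj; rw [fl_self, fl_self]
    · rw [fl_of_ne _ hj, fl_of_ne _ (fun h => hj (Sum.inl_injective h))]

/-- the Hamming labeling -/
lemma lab_hamming (s : ℕ) : Lab {h : Fin s → ZMod 2 // h ≠ 0} (Fin s → ZMod 2) := by
  classical
  refine ⟨fun x => ∑ h, if x h then h.1 else 0, fun x k => ?_⟩
  by_cases hk : (∑ h, if x h then h.1 else 0) = k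
  · exact Or.inl hk
  right
  set c := (∑ h, if x h then h.1 else 0) with hc
  have hne : k - c ≠ 0 := fun h => hk (sub_eq_zero.1 h).symm
  refine ⟨⟨k - c, hne⟩, ?_⟩
  have key : ∀ g : {h : Fin s → ZMod 2 // h ≠ 0},
      (∑ h, if fl x g h then h.1 else 0) = c + g.1 := by
    intro g
    rw [hc, ← Finset.add_sum_erase univ _ (Finset.mem_univ g),
      ← Finset.add_sum_erase univ (fun j => if x j then j.1 else 0) (Finset.mem_univ g)]
    have h1 : ∑ j ∈ univ.erase g, (if fl x g j then j.1 else 0) =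
        ∑ j ∈ univ.erase g, (if x j then j.1 else 0) := by
      apply Finset.sum_congr rfl
      intro j hj
      rw [fl_of_ne _ (Finset.ne_of_mem_erase hj)]
    rw [h1, fl_self]
    have hgg : g.1 + g.1 = 0 := by
      funext j
      exact CharTwo.add_self_eq_zero (g.1 j)
    cases x g
    · simp only [Bool.not_false, if_true, Bool.false_eq_true, if_false]
      abel
    · simp only [Bool.not_true, if_true, Bool.false_eq_true, if_false]
      rw [add_right_comm, hgg]
  have := key ⟨k - c, hne⟩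
  simp only at this ⊢
  rw [this]
  simp

/-- the Hamming code over the field `F` on blocks -/
lemma Lab.block {ι F : Type} [DecidableEq ι] [Field F] [Finite F] (h : Lab ι F) (r : ℕ)
    [DecidableEq (Projectivization F (Fin r → F))] :
    Lab (ι × Projectivization F (Fin r → F)) (Fin r → F) := by
  classical
  have : Fintype (Projectivization F (Fin r → F)) := Fintype.ofFinite _
  obtain ⟨π, hπ⟩ := h
  refine ⟨fun x => ∑ j : Projectivization F (Fin r → F), π (fun i => x (i, j)) • j.rep,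
    fun x k => ?_⟩
  set c := ∑ j : Projectivization F (Fin r → F), π (fun i => x (i, j)) • j.rep with hc
  by_cases hk : c = k
  · exact Or.inl hk
  right
  have hne : k - c ≠ 0 := fun h => hk (sub_eq_zero.1 h).symm
  set j := Projectivization.mk F (k - c) hne with hj
  obtain ⟨a, ha⟩ := Projectivization.exists_smul_eq_mk_rep F (k - c) hne
  -- `a • (k - c) = j.rep`
  have ha' : k - c = (a⁻¹ : Fˣ) • j.rep := by
    rw [hj, ← ha, inv_smul_smul]
  have hchange : ∀ i : ι, (∑ j' : Projectivization F (Fin r → F),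
      π (fun i' => fl x (i, j) (i', j')) • j'.rep) =
      c + (π (fl (fun i' => x (i', j)) i) - π (fun i' => x (i', j))) • j.rep := by
    intro i
    rw [hc, ← Finset.add_sum_erase univ _ (Finset.mem_univ j),
      ← Finset.add_sum_erase univ (fun j' => π (fun i' => x (i', j')) • j'.rep)
        (Finset.mem_univ j)]
    have h1 : ∑ j' ∈ univ.erase j, (π (fun i' => fl x (i, j) (i', j')) • j'.rep) =
        ∑ j' ∈ univ.erase j, (π (fun i' => x (i', j')) • j'.rep) := by
      apply Finset.sum_congr rfl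
      intro j' hj'
      congr 2
      funext i'
      rw [fl_of_ne]
      intro h
      exact Finset.ne_of_mem_erase hj' (congrArg Prod.snd h)
    have h2 : (fun i' => fl x (i, j) (i', j)) = fl (fun i' => x (i', j)) i := by
      funext i'
      by_cases h : i' = i
      · subst h; rw [fl_self, fl_self]
      · rw [fl_of_ne _ h, fl_of_ne]
        intro h'
        exact h (congrArg Prod.fst h')
    rw [h1, h2, sub_smul]
    abel
  rcases hπ (fun i' => x (i', j)) (π (fun i' => x (i', j)) + ((a⁻¹ : Fˣ) : F)) with h | ⟨i, h⟩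
  · exfalso
    have : ((a⁻¹ : Fˣ) : F) = 0 := by
      have h' : π (fun i' => x (i', j)) + 0 = π (fun i' => x (i', j)) + ((a⁻¹ : Fˣ) : F) := by
        rw [add_zero]; exact h
      exact (add_left_cancel h').symm
    exact (a⁻¹ : Fˣ).ne_zero this
  · refine ⟨(i, j), ?_⟩
    simp only
    rw [hchange i, h, add_sub_cancel_left]
    have h3 : ((a⁻¹ : Fˣ) : F) • j.rep = k - c := by
      rw [ha']; rfl
    rw [h3]
    abel

/-- doubling -/
lemma Lab.double {ι K : Type} [DecidableEq ι] [Fintype ι] (h : Lab ι K) :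
    Lab ((ι ⊕ ι) ⊕ Unit) (K × ZMod 2) := by
  classical
  obtain ⟨π, hπ⟩ := h
  let w : (((ι ⊕ ι) ⊕ Unit) → Bool) → (ι → Bool) := fun x i =>
    xor (x (Sum.inl (Sum.inl i))) (x (Sum.inl (Sum.inr i)))
  let q : (((ι ⊕ ι) ⊕ Unit) → Bool) → ZMod 2 := fun x =>
    (∑ i : ι, if x (Sum.inl (Sum.inl i)) then 1 else 0) + if x (Sum.inr ()) then 1 else 0
  refine ⟨fun x => (π (w x), q x), ?_⟩
  rintro x ⟨k, b⟩
  -- effects of the flips
  have hw1 : ∀ i, w (fl x (Sum.inl (Sum.inl i))) = fl (w x) i := by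
    intro i
    funext j
    by_cases h : j = i
    · subst h
      simp only [w, fl_self]
      rw [fl_of_ne x (i := Sum.inl (Sum.inl j)) (j := Sum.inl (Sum.inr j)) (by simp)]
      cases x (Sum.inl (Sum.inl j)) <;> cases x (Sum.inl (Sum.inr j)) <;> rfl
    · rw [fl_of_ne _ h]
      simp only [w]
      rw [fl_of_ne _ (by simpa using h), fl_of_ne _ (by simp)]
  have hw2 : ∀ i, w (fl x (Sum.inl (Sum.inr i))) = fl (w x) i := by
    intro i
    funext j
    by_cases h : j = i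
    · subst h
      simp only [w, fl_self]
      rw [fl_of_ne x (i := Sum.inl (Sum.inr j)) (j := Sum.inl (Sum.inl j)) (by simp)]
      cases x (Sum.inl (Sum.inl j)) <;> cases x (Sum.inl (Sum.inr j)) <;> rfl
    · rw [fl_of_ne _ h]
      simp only [w]
      rw [fl_of_ne _ (by simp), fl_of_ne _ (by simpa using h)]
  have hw3 : w (fl x (Sum.inr ())) = w x := by
    funext j
    simp only [w]
    rw [fl_of_ne _ (by simp), fl_of_ne _ (by simp)]
  have hflip : ∀ c : Bool, (if (!c) = true then (1 : ZMod 2) else 0) =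
      (if c = true then 1 else 0) + 1 := by
    intro c; cases c <;> simp; decide
  have hq1 : ∀ i, q (fl x (Sum.inl (Sum.inl i))) = q x + 1 := by
    intro i
    simp only [q]
    rw [← Finset.add_sum_erase univ _ (Finset.mem_univ i),
      ← Finset.add_sum_erase univ (fun j => if x (Sum.inl (Sum.inl j)) then (1 : ZMod 2) else 0)
        (Finset.mem_univ i)]
    have h1 : ∑ j ∈ univ.erase i, (if fl x (Sum.inl (Sum.inl i)) (Sum.inl (Sum.inl j)) then
        (1 : ZMod 2) else 0) = ∑ j ∈ univ.erase i, (if x (Sum.inl (Sum.inl j)) then 1 else 0) := by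
      apply Finset.sum_congr rfl
      intro j hj
      rw [fl_of_ne _ (by simpa using Finset.ne_of_mem_erase hj)]
    rw [h1, fl_self, fl_of_ne _ (by simp : (Sum.inr () : (ι ⊕ ι) ⊕ Unit) ≠ _), hflip]
    abel
  have hq2 : ∀ i, q (fl x (Sum.inl (Sum.inr i))) = q x := by
    intro i
    simp only [q]
    rw [fl_of_ne _ (by simp : (Sum.inr () : (ι ⊕ ι) ⊕ Unit) ≠ _)]
    congr 1
  have hq3 : q (fl x (Sum.inr ())) = q x + 1 := by
    simp only [q]
    have h1 : ∑ j : ι, (if fl x (Sum.inr ()) (Sum.inl (Sum.inl j)) then (1 : ZMod 2) else 0) =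
        ∑ j : ι, (if x (Sum.inl (Sum.inl j)) then 1 else 0) := by
      apply Finset.sum_congr rfl
      intro j _
      rw [fl_of_ne _ (by simp)]
    rw [h1, fl_self, hflip, ← add_assoc]
  have hb : ∀ c d : ZMod 2, c ≠ d → c + 1 = d := by decide
  by_cases hq : q x = b
  · rcases hπ (w x) k with h | ⟨i, h⟩
    · exact Or.inl (Prod.ext h hq)
    · exact Or.inr ⟨Sum.inl (Sum.inr i), Prod.ext (by simp only [hw2]; exact h)
        (by simp only [hq2]; exact hq)⟩
  · rcases hπ (w x) k with h | ⟨i, h⟩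
    · exact Or.inr ⟨Sum.inr (), Prod.ext (by simp only [hw3]; exact h)
        (by simp only [hq3]; exact hb _ _ hq)⟩
    · exact Or.inr ⟨Sum.inl (Sum.inl i), Prod.ext (by simp only [hw1]; exact h)
        (by simp only [hq1]; exact hb _ _ hq)⟩

lemma Lab.fin {ι K : Type} [DecidableEq ι] [Fintype ι] (h : Lab ι K) :
    Lab (Fin (Fintype.card ι)) K := h.equiv (Fintype.equivFin ι)

lemma Lab.pad_fin {n m : ℕ} {K : Type} (h : Lab (Fin n) K) (hnm : n ≤ m) : Lab (Fin m) K := by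
  have h1 : Lab (Fin n ⊕ Fin (m - n)) K := h.pad
  have e : Fin n ⊕ Fin (m - n) ≃ Fin m := finSumFinEquiv.trans (finCongr (by omega))
  exact h1.equiv e

lemma exists_lab_double {n : ℕ} {K : Type} [Finite K] (h : Lab (Fin n) K) :
    ∃ K' : Type, Finite K' ∧ Lab (Fin (2 * n + 1)) K' ∧ Nat.card K' = 2 * Nat.card K := by
  refine ⟨K × ZMod 2, inferInstance, ?_, ?_⟩
  · have h1 := h.double
    have e : (Fin n ⊕ Fin n) ⊕ Unit ≃ Fin (2 * n + 1) :=
      Fintype.equivOfCardEq (by simp; ring)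
    exact h1.equiv e
  · rw [Nat.card_prod, Nat.card_zmod, mul_comm]

lemma exists_lab_double_iter {n : ℕ} {K : Type} [Finite K] (h : Lab (Fin n) K) (j : ℕ) :
    ∃ (n' : ℕ) (K' : Type), Finite K' ∧ Lab (Fin n') K' ∧ n' + 1 = 2 ^ j * (n + 1) ∧
      Nat.card K' = 2 ^ j * Nat.card K := by
  induction j with
  | zero => exact ⟨n, K, inferInstance, h, by simp, by simp⟩
  | succ j ih =>
    obtain ⟨n', K', hf, hL, h1, h2⟩ := ih
    obtain ⟨K'', hf', hL', h3⟩ := exists_lab_double hL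
    exact ⟨2 * n' + 1, K'', hf', hL', by rw [pow_succ]; linarith, by rw [h3, h2, pow_succ]; ring⟩

lemma exists_lab (s a r j : ℕ) (ha : 1 ≤ a) (has : 3 ^ a ≤ 2 ^ s) :
    ∃ (n : ℕ) (K : Type), Finite K ∧ Lab (Fin n) K ∧ Nat.card K = 2 ^ j * (3 ^ a) ^ r ∧
      (n + 1) * (3 ^ a - 1) ≤ 2 ^ j * (3 ^ a) ^ r * (2 ^ s - 1) := by
  classical
  have : Fact (Nat.Prime 3) := ⟨by norm_num⟩
  let F := GaloisField 3 a
  have hF : Nat.card F = 3 ^ a := GaloisField.card 3 a (by omega)
  have : Finite F := Nat.finite_of_card_ne_zero (by rw [hF]; positivity)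
  have : Fintype F := Fintype.ofFinite F
  have h0 := lab_hamming s
  obtain ⟨f, hf⟩ : ∃ f : (Fin s → ZMod 2) → F, Function.Surjective f := by
    have hcard : Fintype.card F ≤ Fintype.card (Fin s → ZMod 2) := by
      rw [← Nat.card_eq_fintype_card, hF]
      simpa using has
    obtain ⟨g⟩ := Function.Embedding.nonempty_of_card_le hcard
    have : Nonempty F := ⟨0⟩
    exact ⟨Function.invFun g, Function.invFun_surjective g.injective⟩
  have h1 := h0.comp f hf
  have h2 := h1.block r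
  have : Fintype (Projectivization F (Fin r → F)) := Fintype.ofFinite _
  have h3 := h2.fin
  obtain ⟨n', K', hfin, hL, h4, h5⟩ := exists_lab_double_iter h3 j
  have hcardK : Nat.card (Fin r → F) = (3 ^ a) ^ r := by
    rw [Nat.card_fun, hF]; simp
  refine ⟨n', K', hfin, hL, by rw [h5, hcardK], ?_⟩
  have hN : Fintype.card {h : Fin s → ZMod 2 // h ≠ 0} = 2 ^ s - 1 := by
    have : Fintype.card {h : Fin s → ZMod 2 // h ≠ 0} = Fintype.card (Fin s → ZMod 2) - 1 := by
      rw [Fintype.card_subtype_compl, Fintype.card_subtype_eq]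
    rw [this]; simp
  have hP := Projectivization.card F (Fin r → F)
  rw [hcardK, hF, Nat.card_eq_fintype_card] at hP
  rw [h4, Fintype.card_prod, hN]
  set M := Fintype.card (Projectivization F (Fin r → F)) with hM
  have hpow : 1 ≤ (3 ^ a) ^ r := Nat.one_le_pow _ _ (by positivity)
  obtain ⟨p, hp⟩ : ∃ p, 3 ^ a = p + 1 := ⟨3 ^ a - 1, by
    have : 1 ≤ 3 ^ a := Nat.one_le_pow _ _ (by norm_num)
    omega⟩
  obtain ⟨q, hq⟩ : ∃ q, 2 ^ s = q + 1 := ⟨2 ^ s - 1, by
    have : 1 ≤ 2 ^ s := Nat.one_le_pow _ _ (by norm_num)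
    omega⟩
  rw [hp] at hP hpow has ⊢
  rw [hq] at has ⊢
  simp only [Nat.add_sub_cancel] at hP ⊢
  have hpq : p ≤ q := by omega
  have hP' : (p + 1) ^ r = M * p + 1 := by omega
  rw [hP']
  have : 2 ^ j * (q * M + 1) * p = 2 ^ j * (q * (M * p) + p) := by ring
  rw [this, mul_assoc]
  apply Nat.mul_le_mul_left
  nlinarith

/-! ### Products of powers of `2` and of `A` -/

lemma dens_aux (A : ℕ) (hA : 3 ≤ A) (hodd : Odd A) (η : ℝ) (hη : 0 < η) :
    ∃ k j : ℕ, 1 ≤ k ∧ (k : ℝ) * Real.log A - j * Real.log 2 ≠ 0 ∧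
      |(k : ℝ) * Real.log A - j * Real.log 2| < η := by
  have hL : 0 < Real.log 2 := Real.log_pos (by norm_num)
  have hAr : (3 : ℝ) ≤ A := by exact_mod_cast hA
  have hlA : 0 < Real.log A := Real.log_pos (by linarith)
  obtain ⟨n, hn⟩ := exists_nat_gt (Real.log 2 / η)
  obtain ⟨j, k, hk0, hk1, h⟩ := Real.exists_int_int_abs_mul_sub_le (Real.log A / Real.log 2)
    (Nat.succ_pos n)
  have hj : 0 ≤ j := by
    by_contra hc
    push Not at hc
    have h1 : (j : ℝ) ≤ -1 := by exact_mod_cast (by omega : j ≤ -1)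
    have h2 : 0 ≤ (k : ℝ) * (Real.log A / Real.log 2) := by
      have : (0 : ℝ) < k := by exact_mod_cast hk0
      positivity
    have h3 : (1 : ℝ) ≤ |(k : ℝ) * (Real.log A / Real.log 2) - j| := by
      rw [abs_of_nonneg (by linarith)]
      linarith
    have h4 : (1 : ℝ) / (((Nat.succ n : ℕ) : ℝ) + 1) < 1 := by
      rw [div_lt_one (by positivity)]
      push_cast
      have : (0 : ℝ) ≤ n := by positivity
      linarith
    linarith
  lift j to ℕ using hj
  lift k to ℕ using hk0.le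
  have hk0' : 1 ≤ k := by exact_mod_cast hk0
  refine ⟨k, j, hk0', ?_, ?_⟩
  · intro h0
    have h1 : Real.log ((A : ℝ) ^ k) = Real.log ((2 : ℝ) ^ j) := by
      rw [Real.log_pow, Real.log_pow]; linarith
    have h2 : (A : ℝ) ^ k = (2 : ℝ) ^ j :=
      Real.log_injOn_pos (Set.mem_Ioi.2 (by positivity)) (Set.mem_Ioi.2 (by positivity)) h1
    have h3 : A ^ k = 2 ^ j := by exact_mod_cast h2
    have h4 : Odd (A ^ k) := hodd.pow
    rw [h3] at h4
    rcases Nat.eq_zero_or_pos j with hj | hj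
    · subst hj
      rw [pow_zero] at h3
      have : 1 < A ^ k := Nat.one_lt_pow (by omega) (by omega)
      omega
    · exact (Nat.not_odd_iff_even.2 ((Nat.even_pow.2 ⟨even_two, by omega⟩))) h4
  · have h5 : (k : ℝ) * Real.log A - j * Real.log 2 =
        ((k : ℝ) * (Real.log A / Real.log 2) - j) * Real.log 2 := by
      field_simp
    rw [h5, abs_mul, abs_of_pos hL]
    have h6 : (Real.log 2) / η < ((Nat.succ n : ℕ) : ℝ) + 1 := by
      push_cast; linarith
    rw [div_lt_iff₀ hη] at h6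
    have h7 : |(k : ℝ) * (Real.log A / Real.log 2) - j| ≤ 1 / (((Nat.succ n : ℕ) : ℝ) + 1) := by
      exact_mod_cast h
    calc |(k : ℝ) * (Real.log A / Real.log 2) - j| * Real.log 2
        ≤ 1 / (((Nat.succ n : ℕ) : ℝ) + 1) * Real.log 2 :=
          mul_le_mul_of_nonneg_right h7 hL.le
      _ < η := by
          rw [one_div, inv_mul_lt_iff₀ (by positivity)]
          linarith

lemma dens (A : ℕ) (hA : 3 ≤ A) (hodd : Odd A) (δ : ℝ) (hδ : 0 < δ) (hδ1 : δ < 1) :
    ∃ Y : ℝ, 1 ≤ Y ∧ ∀ y : ℝ, Y ≤ y → ∃ j r : ℕ,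
      (1 - δ) * y ≤ 2 ^ j * (A : ℝ) ^ r ∧ 2 ^ j * (A : ℝ) ^ r ≤ y := by
  have hL : 0 < Real.log 2 := Real.log_pos (by norm_num)
  have hApos : (0 : ℝ) < A := by
    have : (3 : ℝ) ≤ A := by exact_mod_cast hA
    linarith
  have hη : 0 < -Real.log (1 - δ) := by
    have := Real.log_neg (by linarith : 0 < 1 - δ) (by linarith)
    linarith
  obtain ⟨k, j, hk, hne, habs⟩ := dens_aux A hA hodd _ hη
  set l := (k : ℝ) * Real.log A - j * Real.log 2 with hl
  obtain ⟨I, hI⟩ := exists_nat_gt (Real.log 2 / |l|)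
  have hlpos : 0 < |l| := abs_pos.2 hne
  rw [div_lt_iff₀ hlpos] at hI
  refine ⟨2 ^ (j * (I + 1) + 1), one_le_pow₀ (by norm_num), fun y hy => ?_⟩
  have hypos : 0 < y := lt_of_lt_of_le (by positivity) hy
  have hlogy : ((j * (I + 1) + 1 : ℕ) : ℝ) * Real.log 2 ≤ Real.log y := by
    rw [← Real.log_pow]
    exact Real.log_le_log (by positivity) hy
  -- it is enough to find `J ≥ j i` with `log y + log (1 - δ) ≤ J log 2 + i l ≤ log y`
  suffices h : ∃ J i : ℕ, j * i ≤ J ∧ Real.log (1 - δ) + Real.log y ≤ J * Real.log 2 + i * l ∧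
      J * Real.log 2 + i * l ≤ Real.log y by
    obtain ⟨J, i, hJ, h1, h2⟩ := h
    have hlog : Real.log (2 ^ (J - j * i) * (A : ℝ) ^ (k * i)) = J * Real.log 2 + i * l := by
      rw [Real.log_mul (by positivity) (by positivity), Real.log_pow, Real.log_pow,
        Nat.cast_sub hJ, hl]
      push_cast
      ring
    refine ⟨J - j * i, k * i, ?_, ?_⟩
    · rw [← Real.log_le_log_iff (mul_pos (by linarith) hypos) (by positivity), hlog,
        Real.log_mul (by linarith) hypos.ne']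
      exact h1
    · rw [← Real.log_le_log_iff (by positivity) hypos, hlog]
      exact h2
  have hlogy0 : 0 ≤ Real.log y := by
    refine le_trans ?_ hlogy
    positivity
  rcases lt_or_gt_of_ne hne with hneg | hpos
  · -- `l < 0`
    rw [abs_of_neg hneg] at habs hI hlpos
    set J := ⌈Real.log y / Real.log 2⌉₊ with hJ
    have hJ1 : Real.log y ≤ J * Real.log 2 := by
      have := Nat.le_ceil (Real.log y / Real.log 2)
      rwa [div_le_iff₀ hL] at this
    have hJ2 : (J : ℝ) * Real.log 2 < Real.log y + Real.log 2 := by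
      have := Nat.ceil_lt_add_one (a := Real.log y / Real.log 2) (by positivity)
      rw [← hJ] at this
      have h' := mul_lt_mul_of_pos_right this hL
      rwa [add_mul, div_mul_cancel₀ _ hL.ne', one_mul] at h'
    set i := ⌈(J * Real.log 2 - Real.log y) / (-l)⌉₊ with hi
    have hi1 : J * Real.log 2 - Real.log y ≤ i * (-l) := by
      have := Nat.le_ceil ((J * Real.log 2 - Real.log y) / (-l))
      rwa [div_le_iff₀ hlpos] at this
    have hi2 : (i : ℝ) * (-l) < J * Real.log 2 - Real.log y + (-l) := by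
      have := Nat.ceil_lt_add_one (a := (J * Real.log 2 - Real.log y) / (-l))
        (div_nonneg (by linarith) hlpos.le)
      rw [← hi] at this
      have h' := mul_lt_mul_of_pos_right this hlpos
      rwa [add_mul, div_mul_cancel₀ _ hlpos.ne', one_mul] at h'
    refine ⟨J, i, ?_, by linarith, by linarith⟩
    have hiI : i ≤ I + 1 := by
      have h1 : (i : ℝ) * (-l) < ((I : ℝ) + 1) * (-l) := by linarith
      have h2 : (i : ℝ) < (I : ℝ) + 1 := lt_of_mul_lt_mul_right h1 hlpos.le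
      have h3 : i < I + 1 := by exact_mod_cast h2
      omega
    have h1 : ((j * (I + 1) + 1 : ℕ) : ℝ) * Real.log 2 ≤ (J : ℝ) * Real.log 2 := hlogy.trans hJ1
    have h2 : ((j * (I + 1) + 1 : ℕ) : ℝ) ≤ J := le_of_mul_le_mul_right h1 hL
    have h3 : j * (I + 1) + 1 ≤ J := by exact_mod_cast h2
    calc j * i ≤ j * (I + 1) := Nat.mul_le_mul_left _ hiI
      _ ≤ J := by omega
  · -- `l > 0`
    rw [abs_of_pos hpos] at habs hI hlpos
    set J := ⌊Real.log y / Real.log 2⌋₊ with hJ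
    have hJ1 : J * Real.log 2 ≤ Real.log y := by
      have := Nat.floor_le (a := Real.log y / Real.log 2) (by positivity)
      rwa [← hJ, le_div_iff₀ hL] at this
    have hJ2 : Real.log y < (J : ℝ) * Real.log 2 + Real.log 2 := by
      have := Nat.lt_floor_add_one (Real.log y / Real.log 2)
      rw [← hJ, div_lt_iff₀ hL] at this
      linarith
    set i := ⌊(Real.log y - J * Real.log 2) / l⌋₊ with hi
    have hi1 : i * l ≤ Real.log y - J * Real.log 2 := by
      have := Nat.floor_le (a := (Real.log y - J * Real.log 2) / l)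
        (div_nonneg (by linarith) hlpos.le)
      rwa [← hi, le_div_iff₀ hlpos] at this
    have hi2 : Real.log y - J * Real.log 2 < i * l + l := by
      have := Nat.lt_floor_add_one ((Real.log y - J * Real.log 2) / l)
      rw [← hi, div_lt_iff₀ hlpos] at this
      linarith
    refine ⟨J, i, ?_, by linarith, by linarith⟩
    have hiI : i ≤ I := by
      have h1 : (i : ℝ) * l < (I : ℝ) * l := by linarith
      have h2 : (i : ℝ) < (I : ℝ) := lt_of_mul_lt_mul_right h1 hlpos.le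
      have h3 : i < I := by exact_mod_cast h2
      omega
    have h1 : ((j * (I + 1) + 1 : ℕ) : ℝ) * Real.log 2 < ((J : ℝ) + 1) * Real.log 2 := by
      linarith
    have h2 : ((j * (I + 1) + 1 : ℕ) : ℝ) < (J : ℝ) + 1 := lt_of_mul_lt_mul_right h1 hL.le
    have h3 : j * (I + 1) + 1 < J + 1 := by exact_mod_cast h2
    calc j * i ≤ j * (I + 1) := Nat.mul_le_mul_left _ (by omega)
      _ ≤ J := by omega

/-- `2 ^ s` is slightly larger than `3 ^ a`. -/
lemma exists_close (ε : ℝ) (hε : 0 < ε) : ∃ s a : ℕ, 1 ≤ a ∧ 3 ^ a ≤ 2 ^ s ∧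
    (2 : ℝ) ^ s - 1 ≤ (1 + ε) * ((3 : ℝ) ^ a - 1) := by
  -- work with `δ = min (1/4) (ε / 8)`
  set δ := min (1 / 4 : ℝ) (ε / 8) with hδ
  have hδ0 : 0 < δ := lt_min (by norm_num) (by linarith)
  have hδ1 : δ ≤ 1 / 4 := min_le_left _ _
  have hδ2 : δ ≤ ε / 8 := min_le_right _ _
  obtain ⟨Y, hY1, hY⟩ := dens 3 le_rfl (by decide) δ hδ0 (by linarith)
  obtain ⟨J, hJ⟩ : ∃ J : ℕ, Y + 1 + 1 / δ ≤ 2 ^ J := by
    obtain ⟨J, hJ⟩ := pow_unbounded_of_one_lt (Y + 1 + 1 / δ) (by norm_num : (1 : ℝ) < 2)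
    exact ⟨J, hJ.le⟩
  have hinv : 4 ≤ 1 / δ := by
    rw [le_div_iff₀ hδ0]; linarith
  obtain ⟨j, r, h1, h2⟩ := hY (2 ^ J - 1) (by
    have : 0 < 1 / δ := by positivity
    linarith)
  have hJδ : 1 ≤ δ * 2 ^ J := by
    have : 1 / δ ≤ 2 ^ J := by linarith
    rw [div_le_iff₀ hδ0] at this
    linarith
  have h3 : 2 ^ j * 3 ^ r < 2 ^ J := by
    have : (2 : ℝ) ^ j * (3 : ℕ) ^ r < 2 ^ J := by linarith
    exact_mod_cast this
  have hjJ : j < J := by
    have h4 : 2 ^ j < 2 ^ J := lt_of_le_of_lt (Nat.le_mul_of_pos_right _ (by positivity)) h3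
    exact (Nat.pow_lt_pow_iff_right (by norm_num)).1 h4
  have hr : 1 ≤ r := by
    by_contra hc
    have hr0 : r = 0 := by omega
    subst hr0
    simp only [pow_zero, mul_one] at h1
    have h4 : (2 : ℝ) ^ j ≤ 2 ^ (J - 1) := pow_le_pow_right₀ (by norm_num) (by omega)
    have h5 : (2 : ℝ) ^ J = 2 * 2 ^ (J - 1) := by
      rw [← pow_succ']
      congr 1
      omega
    have h6 : (3 / 4 : ℝ) * (2 ^ J - 1) ≤ (1 - δ) * (2 ^ J - 1) := by
      apply mul_le_mul_of_nonneg_right (by linarith)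
      linarith
    linarith
  obtain ⟨s, hs⟩ : ∃ s, J = j + s := ⟨J - j, by omega⟩
  have hj0 : (0 : ℝ) < 2 ^ j := by positivity
  refine ⟨s, r, hr, ?_, ?_⟩
  · rw [hs, pow_add] at h3
    exact (Nat.lt_of_mul_lt_mul_left h3).le
  · -- `(1 - δ)(2 ^ J - 1) ≤ 2 ^ j 3 ^ r`
    have h4 : (1 - 2 * δ) * 2 ^ J ≤ 2 ^ j * (3 : ℝ) ^ r := by
      have : (1 - δ) * (2 ^ J - 1) ≤ 2 ^ j * (3 : ℝ) ^ r := by exact_mod_cast h1
      nlinarith
    rw [hs, pow_add] at h4
    have h5 : (1 - 2 * δ) * 2 ^ s ≤ (3 : ℝ) ^ r := by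
      have h6 : 2 ^ j * ((1 - 2 * δ) * 2 ^ s) ≤ 2 ^ j * (3 : ℝ) ^ r := by linarith
      exact le_of_mul_le_mul_left h6 hj0
    have h7 : (3 : ℝ) ≤ 3 ^ r := by
      calc (3 : ℝ) = 3 ^ 1 := by norm_num
        _ ≤ 3 ^ r := pow_le_pow_right₀ (by norm_num) hr
    -- `2 ^ s ≤ 3 ^ r / (1 - 2 δ) ≤ (1 + 4 δ) 3 ^ r ≤ (1 + ε / 2) 3 ^ r`
    have h8 : (2 : ℝ) ^ s ≤ (1 + 4 * δ) * 3 ^ r := by
      have h9 : (1 + 4 * δ) * ((1 - 2 * δ) * 2 ^ s) ≤ (1 + 4 * δ) * 3 ^ r :=
        mul_le_mul_of_nonneg_left h5 (by linarith)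
      have h10 : (1 : ℝ) ≤ (1 + 4 * δ) * (1 - 2 * δ) := by nlinarith
      have h11 : (0 : ℝ) < 2 ^ s := by positivity
      nlinarith
    nlinarith

/-- **Asymptotically perfect labelings** (in particular coverings) of the hypercube. -/
theorem exists_lab_asymp (ε : ℝ) (hε : 0 < ε) (hε1 : ε < 1) : ∃ n₀ : ℕ, ∀ n : ℕ, n₀ ≤ n →
    ∃ K : Type, Finite K ∧ Lab (Fin n) K ∧ (1 - ε) * (n : ℝ) ≤ Nat.card K := by
  obtain ⟨s, a, ha, has, hsa⟩ := exists_close (ε / 2) (by linarith)
  have hodd : Odd (3 ^ a) := Odd.pow (by decide)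
  have h3a : 3 ≤ 3 ^ a := by
    calc 3 = 3 ^ 1 := by norm_num
      _ ≤ 3 ^ a := Nat.pow_le_pow_right (by norm_num) ha
  obtain ⟨Y, hY1, hY⟩ := dens (3 ^ a) h3a hodd (ε / 2) (by linarith) (by linarith)
  refine ⟨⌈2 * Y⌉₊, fun n hn => ?_⟩
  have hn' : 2 * Y ≤ n := Nat.ceil_le.1 hn
  have hpos : 0 < 1 + ε / 2 := by linarith
  obtain ⟨j, r, h1, h2⟩ := hY (((n : ℝ) + 1) / (1 + ε / 2)) (by
    rw [le_div_iff₀ hpos]
    nlinarith)
  obtain ⟨n', K, hfin, hL, hcard, hle⟩ := exists_lab s a r j ha has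
  have hcard' : (Nat.card K : ℝ) = 2 ^ j * ((3 ^ a : ℕ) : ℝ) ^ r := by
    rw [hcard]; push_cast; rfl
  have h3a' : (3 : ℝ) ≤ 3 ^ a := by exact_mod_cast h3a
  have hle' : ((n' : ℝ) + 1) * (3 ^ a - 1) ≤ 2 ^ j * ((3 ^ a : ℕ) : ℝ) ^ r * (2 ^ s - 1) := by
    have e1 : (((3 ^ a - 1 : ℕ)) : ℝ) = 3 ^ a - 1 := by
      rw [Nat.cast_sub (by omega)]; push_cast; rfl
    have e2 : (((2 ^ s - 1 : ℕ)) : ℝ) = 2 ^ s - 1 := by
      rw [Nat.cast_sub Nat.one_le_two_pow]; push_cast; rfl
    rw [← e1, ← e2]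
    exact_mod_cast hle
  have hκ : 0 < 2 ^ j * ((3 ^ a : ℕ) : ℝ) ^ r := by positivity
  have h4 : (n' : ℝ) + 1 ≤ (1 + ε / 2) * (2 ^ j * ((3 ^ a : ℕ) : ℝ) ^ r) := by
    have h5 : ((n' : ℝ) + 1) * (3 ^ a - 1) ≤
        ((1 + ε / 2) * (2 ^ j * ((3 ^ a : ℕ) : ℝ) ^ r)) * (3 ^ a - 1) := by
      refine hle'.trans ?_
      have := mul_le_mul_of_nonneg_left hsa hκ.le
      linarith
    exact le_of_mul_le_mul_right h5 (by linarith)
  have h6 : (1 + ε / 2) * (2 ^ j * ((3 ^ a : ℕ) : ℝ) ^ r) ≤ (n : ℝ) + 1 := by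
    rw [le_div_iff₀ hpos] at h2
    linarith
  have h7 : n' ≤ n := by
    have : (n' : ℝ) ≤ n := by linarith
    exact_mod_cast this
  refine ⟨K, hfin, hL.pad_fin h7, ?_⟩
  rw [hcard']
  refine le_trans ?_ h1
  have h8 : (1 - ε) * (1 + ε / 2) ≤ 1 - ε / 2 := by nlinarith
  have h9 : (0 : ℝ) ≤ n := by positivity
  rw [← mul_div_assoc, le_div_iff₀ hpos]
  have h10 : (1 - ε) * (n : ℝ) * (1 + ε / 2) = ((1 - ε) * (1 + ε / 2)) * n := by ring
  rw [h10]
  calc ((1 - ε) * (1 + ε / 2)) * (n : ℝ) ≤ (1 - ε / 2) * n := mul_le_mul_of_nonneg_right h8 h9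
    _ ≤ (1 - ε / 2) * (n + 1) := by nlinarith

end Pool.Agent.D0H3.Labeling
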